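import Pool.Agent.H2.OI3

open Pool.Agent.H2.OI

namespace Pool.Agent.Results.MP_9ec07c_ag.RegNotLinear

theorem result (K : Type) [Field K] (fi : Bool) (h2 : fi = true → (2 : K) = 0) :
    ∃ (M : Mod K fi) (G : ∀ n, ℤ → Submodule K (M.obj n)), M.IsGrading G ∧ M.GrFG G ∧
      (∀ n : ℕ, Odd n → IsReg n (G n) 1) ∧
      (∀ n : ℕ, Even n → 2 ≤ n → IsReg n (G n) 0) ∧
      ¬ ∃ (a b : ℤ) (N : ℕ), ∀ n ≥ N, IsReg n (G n) (a * n + b) := by
  refine ⟨exMod K fi h2, gr K, exGrading fi h2, exGrFG fi h2, fun n hn => reg_odd hn,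
    fun n hn h => reg_even hn (by omega), ?_⟩
  rintro ⟨a, b, N, h⟩
  have e1 := (h (2 * N + 1) (by omega)).unique (reg_odd (K := K) ⟨N, rfl⟩)
  have e2 := (h (2 * N + 2) (by omega)).unique (reg_even (K := K) ⟨N + 1, by ring⟩ (by omega))
  have e3 := (h (2 * N + 3) (by omega)).unique (reg_odd (K := K) ⟨N + 1, by ring⟩)
  push_cast at e1 e2 e3
  have : (2 : ℤ) = 0 := by linear_combination -e1 + 2 * e2 - e3
  omega

end Pool.Agent.Results.MP_9ec07c_ag.RegNotLinear
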